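import Pool.Agent.Helper36.SPR.St

/-!
# Project SPR, module LV: level set and multiplicative energy
-/

set_option autoImplicit false

namespace Pool.Agent.Helper39.SPR

open Pool.Agent.Helper36.SPR
open Finset

/-- Young's inequality on a finite group -/
private theorem young_LV {U : Type} [Group U] [Fintype U] (p q : U → ℝ) (hp : ∀ u, 0 ≤ p u)
    (hq : ∀ u, 0 ≤ q u) :
    ∑ x, (∑ u, p u * q (u⁻¹ * x)) ^ 2 ≤ (∑ u, p u ^ 2) * (∑ u, q u) ^ 2 := by
  have h1 : ∀ x : U, ∑ u, q (u⁻¹ * x) = ∑ u, q u := by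
    intro x
    exact Fintype.sum_equiv ((Equiv.inv U).trans (Equiv.mulRight x)) _ _ (fun u => rfl)
  have h2 : ∀ u : U, ∑ x, q (u⁻¹ * x) = ∑ x, q x := by
    intro u
    exact Fintype.sum_equiv (Equiv.mulLeft u⁻¹) _ _ (fun x => rfl)
  calc ∑ x, (∑ u, p u * q (u⁻¹ * x)) ^ 2
      ≤ ∑ x, (∑ u, p u ^ 2 * q (u⁻¹ * x)) * ∑ u, q (u⁻¹ * x) := by
        refine Finset.sum_le_sum fun x _ => ?_
        refine Finset.sum_sq_le_sum_mul_sum_of_sq_eq_mul _ (fun u _ => ?_) (fun u _ => hq _) (fun u _ => ?_)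
        · exact mul_nonneg (sq_nonneg _) (hq _)
        · ring
    _ = (∑ u, p u ^ 2) * (∑ u, q u) ^ 2 := by
        simp only [h1]
        rw [← Finset.sum_mul, Finset.sum_comm]
        simp only [← Finset.mul_sum, h2]
        rw [← Finset.sum_mul]
        ring

/-- splitting a sum over `ZMod n` into units and nonunits -/
private theorem split_LV {n : ℕ} [NeZero n] (F : ZMod n → ℝ) :
    ∑ x : ZMod n, F x = ∑ u : (ZMod n)ˣ, F (u : ZMod n) + ∑ x : ZMod n, (if IsUnit x then 0 else F x) := by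
  classical
  have h1 : ∑ u : (ZMod n)ˣ, F (u : ZMod n) = ∑ x : ZMod n, (if IsUnit x then F x else 0) := by
    rw [← Finset.sum_filter]
    refine Finset.sum_bij (fun u _ => (u : ZMod n)) ?_ ?_ ?_ ?_
    · intro u _
      simp
    · intro u _ v _ h
      exact Units.ext h
    · intro x hx
      obtain ⟨u, hu⟩ := (Finset.mem_filter.1 hx).2
      exact ⟨u, Finset.mem_univ _, hu⟩
    · intro u _
      rfl
  rw [h1, ← Finset.sum_add_distrib]
  refine Finset.sum_congr rfl fun x _ => ?_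
  by_cases hx : IsUnit x <;> simp [hx]

/-- the value of `rho` at a unit -/
private theorem unit_LV {n : ℕ} [NeZero n] (f : ZMod n → ℝ) (v : (ZMod n)ˣ) :
    (∑ g : ZMod n, ∑ g' : ZMod n, if g * g' = (v : ZMod n) then f g * f g' else 0) =
      ∑ u : (ZMod n)ˣ, f (u : ZMod n) * f ((u⁻¹ * v : (ZMod n)ˣ) : ZMod n) := by
  classical
  rw [split_LV]
  have h2 : ∑ x : ZMod n, (if IsUnit x then 0 else
      ∑ g' : ZMod n, if x * g' = (v : ZMod n) then f x * f g' else 0) = 0 := by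
    refine Finset.sum_eq_zero fun x _ => ?_
    by_cases hx : IsUnit x
    · simp [hx]
    · rw [if_neg hx]
      refine Finset.sum_eq_zero fun g' _ => ?_
      rw [if_neg]
      intro h
      exact hx (isUnit_of_mul_isUnit_left (h ▸ v.isUnit))
  rw [h2, add_zero]
  refine Finset.sum_congr rfl fun u _ => ?_
  rw [Finset.sum_eq_single (((u⁻¹ * v : (ZMod n)ˣ)) : ZMod n)]
  · rw [if_pos]
    rw [Units.val_mul, ← mul_assoc, Units.mul_inv, one_mul]
  · intro g' _ hg'
    rw [if_neg]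
    intro h
    apply hg'
    rw [Units.val_mul, ← h, ← mul_assoc, Units.inv_mul, one_mul]
  · intro h
    exact absurd (Finset.mem_univ _) h

theorem hLV : StLV := by
  classical
  intro n _ f b K hf0 hfb hf1 hb hK hrho heta A hA
  have hK0 : 0 < K := by linarith
  set φ : (ZMod n)ˣ → ℝ := fun u => f (u : ZMod n) with hφ
  have hφ0 : ∀ u, 0 ≤ φ u := fun u => hf0 _
  have hφb : ∀ u, φ u ≤ b := fun u => hfb _
  have hφ1 : ∑ u, φ u ≤ 1 := by
    have h := split_LV f
    rw [hf1] at h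
    have h2 : 0 ≤ ∑ x : ZMod n, (if IsUnit x then 0 else f x) := Finset.sum_nonneg fun x _ => by
      split_ifs
      · exact le_rfl
      · exact hf0 x
    linarith
  -- the size of A
  have hcard : (A.card : ℝ) * b ≤ 32 * K := by
    have h1 : (A.card : ℝ) * (b / (32 * K)) ≤ ∑ u ∈ A, φ u := by
      rw [← nsmul_eq_mul]
      exact Finset.card_nsmul_le_sum _ _ _ fun u hu => (hA u).1 hu
    have h2 : ∑ u ∈ A, φ u ≤ ∑ u, φ u :=
      Finset.sum_le_sum_of_subset_of_nonneg (Finset.subset_univ _) fun u _ _ => hφ0 u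
    have h3 : (A.card : ℝ) * (b / (32 * K)) ≤ 1 := h1.trans (h2.trans hφ1)
    have h4 : (A.card : ℝ) * b / (32 * K) ≤ 1 := by
      rw [mul_div_assoc]
      exact h3
    rwa [div_le_one (by positivity)] at h4
  refine ⟨?_, hcard⟩
  set ρ : ZMod n → ℝ := fun x => ∑ g : ZMod n, ∑ g' : ZMod n, if g * g' = x then f g * f g' else 0 with hρ
  have hρ0 : ∀ x, 0 ≤ ρ x := fun x => Finset.sum_nonneg fun g _ => Finset.sum_nonneg fun g' _ => by
    split_ifs
    · exact mul_nonneg (hf0 _) (hf0 _)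
    · exact le_rfl
  set η : ℝ := ∑ x : ZMod n, if IsUnit x then 0 else f x with hη
  -- nonunits
  have hnon1 : ∑ x : ZMod n, (if IsUnit x then 0 else ρ x) ≤ 2 * η := by
    have e1 : ∑ x : ZMod n, (if IsUnit x then 0 else ρ x) =
        ∑ g : ZMod n, ∑ g' : ZMod n, (if IsUnit (g * g') then 0 else f g * f g') := by
      have e2 : ∀ x : ZMod n, (if IsUnit x then 0 else ρ x) =
          ∑ g : ZMod n, ∑ g' : ZMod n, (if g * g' = x then (if IsUnit x then 0 else f g * f g') else 0) := by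
        intro x
        by_cases hx : IsUnit x
        · simp [hx]
        · simp only [hx, if_false, hρ]
      simp only [e2]
      rw [Finset.sum_comm]
      refine Finset.sum_congr rfl fun g _ => ?_
      rw [Finset.sum_comm]
      refine Finset.sum_congr rfl fun g' _ => ?_
      rw [Finset.sum_ite_eq]
      simp
    rw [e1]
    have e3 : ∀ g g' : ZMod n, (if IsUnit (g * g') then 0 else f g * f g') ≤
        (if IsUnit g then 0 else f g) * f g' + f g * (if IsUnit g' then 0 else f g') := by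
      intro g g'
      have k1 : 0 ≤ f g * f g' := mul_nonneg (hf0 _) (hf0 _)
      by_cases hg : IsUnit g
      · by_cases hg' : IsUnit g'
        · simp [hg, hg', hg.mul hg']
        · simp only [hg, hg', if_true, if_false, zero_mul, zero_add]
          split_ifs
          · exact k1
          · exact le_rfl
      · simp only [hg, if_false]
        have k2 : 0 ≤ f g * (if IsUnit g' then 0 else f g') := by
          refine mul_nonneg (hf0 _) ?_
          split_ifs
          · exact le_rfl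
          · exact hf0 _
        split_ifs with h1 h2
        · linarith
        · linarith
        · linarith
        · linarith
    calc ∑ g : ZMod n, ∑ g' : ZMod n, (if IsUnit (g * g') then 0 else f g * f g')
        ≤ ∑ g : ZMod n, ∑ g' : ZMod n, ((if IsUnit g then 0 else f g) * f g'
            + f g * (if IsUnit g' then 0 else f g')) :=
          Finset.sum_le_sum fun g _ => Finset.sum_le_sum fun g' _ => e3 g g'
      _ = 2 * η := by
          simp only [Finset.sum_add_distrib, ← Finset.mul_sum, ← Finset.sum_mul, hf1, ← hη]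
          ring
  have hη0 : 0 ≤ η := Finset.sum_nonneg fun x _ => by
    split_ifs
    · exact le_rfl
    · exact hf0 x
  have hnon2 : ∑ x : ZMod n, (if IsUnit x then 0 else ρ x ^ 2) ≤ (2 * η) ^ 2 := by
    set a : ZMod n → ℝ := fun x => if IsUnit x then 0 else ρ x with ha
    have ha0 : ∀ x, 0 ≤ a x := fun x => by
      simp only [ha]
      split_ifs
      · exact le_rfl
      · exact hρ0 x
    have e1 : ∀ x : ZMod n, (if IsUnit x then 0 else ρ x ^ 2) = a x ^ 2 := by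
      intro x
      simp only [ha]
      split_ifs <;> simp
    simp only [e1]
    have e2 : ∑ x, a x ^ 2 ≤ (∑ x, a x) * ∑ x, a x := by
      rw [Finset.sum_mul]
      refine Finset.sum_le_sum fun x _ => ?_
      rw [sq]
      exact mul_le_mul_of_nonneg_left (Finset.single_le_sum (fun y _ => ha0 y) (Finset.mem_univ x)) (ha0 x)
    have e3 : 0 ≤ ∑ x, a x := Finset.sum_nonneg fun x _ => ha0 x
    calc ∑ x, a x ^ 2 ≤ (∑ x, a x) * ∑ x, a x := e2
      _ ≤ (2 * η) * (2 * η) := mul_le_mul hnon1 hnon1 e3 (by linarith)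
      _ = (2 * η) ^ 2 := by ring
  -- units
  have hun : b / (2 * K) ≤ ∑ v : (ZMod n)ˣ, ρ (v : ZMod n) ^ 2 := by
    have h := split_LV (fun x => ρ x ^ 2)
    have h2 : b / K = b / (2 * K) + b / (2 * K) := by field_simp; ring
    have h3 : (2 * η) ^ 2 = 4 * η ^ 2 := by ring
    rw [h3] at hnon2
    linarith
  have hρu : ∀ v : (ZMod n)ˣ, ρ (v : ZMod n) = ∑ u, φ u * φ (u⁻¹ * v) := fun v => unit_LV f v
  simp only [hρu] at hun
  -- the splitting
  set φ1 : (ZMod n)ˣ → ℝ := fun u => if u ∈ A then 0 else φ u with hφ1d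
  set φ2 : (ZMod n)ˣ → ℝ := fun u => if u ∈ A then φ u else 0 with hφ2d
  have hs : ∀ u, φ u = φ1 u + φ2 u := by
    intro u
    simp only [hφ1d, hφ2d]
    split_ifs <;> simp
  have p10 : ∀ u, 0 ≤ φ1 u := fun u => by
    simp only [hφ1d]
    split_ifs
    · exact le_rfl
    · exact hφ0 u
  have p20 : ∀ u, 0 ≤ φ2 u := fun u => by
    simp only [hφ2d]
    split_ifs
    · exact hφ0 u
    · exact le_rfl
  have p1b : ∀ u, φ1 u ≤ b / (32 * K) := fun u => by
    simp only [hφ1d]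
    split_ifs with h
    · positivity
    · have := mt (hA u).2 h
      exact (not_le.1 this).le
  have s1 : ∑ u, φ1 u ≤ 1 := (Finset.sum_le_sum fun u _ => by linarith [hs u, p20 u]).trans hφ1
  have s2 : ∑ u, φ2 u ≤ 1 := (Finset.sum_le_sum fun u _ => by linarith [hs u, p10 u]).trans hφ1
  have q1 : ∑ u, φ1 u ^ 2 ≤ b / (32 * K) := by
    calc ∑ u, φ1 u ^ 2 ≤ ∑ u, (b / (32 * K)) * φ1 u := Finset.sum_le_sum fun u _ => by
          rw [sq]
          exact mul_le_mul_of_nonneg_right (p1b u) (p10 u)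
      _ = (b / (32 * K)) * ∑ u, φ1 u := by rw [Finset.mul_sum]
      _ ≤ (b / (32 * K)) * 1 := mul_le_mul_of_nonneg_left s1 (by positivity)
      _ = b / (32 * K) := mul_one _
  have n1 : 0 ≤ ∑ u, φ u := Finset.sum_nonneg fun u _ => hφ0 u
  have n2 : 0 ≤ ∑ u, φ2 u := Finset.sum_nonneg fun u _ => p20 u
  have q10 : 0 ≤ ∑ u, φ1 u ^ 2 := Finset.sum_nonneg fun u _ => sq_nonneg _
  have Y1 : ∑ x, (∑ u, φ1 u * φ (u⁻¹ * x)) ^ 2 ≤ b / (32 * K) := by
    have h := young_LV φ1 φ p10 hφ0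
    have h2 : (∑ u, φ u) ^ 2 ≤ 1 := by nlinarith
    calc _ ≤ (∑ u, φ1 u ^ 2) * (∑ u, φ u) ^ 2 := h
      _ ≤ (∑ u, φ1 u ^ 2) * 1 := mul_le_mul_of_nonneg_left h2 q10
      _ ≤ b / (32 * K) := by linarith
  have Y2 : ∑ x, (∑ u, φ2 u * φ1 (u⁻¹ * x)) ^ 2 ≤ b / (32 * K) := by
    have e : ∀ x, ∑ u, φ2 u * φ1 (u⁻¹ * x) = ∑ u, φ1 u * φ2 (u⁻¹ * x) := by
      intro x
      refine Fintype.sum_equiv ((Equiv.inv _).trans (Equiv.mulRight x)) _ _ (fun u => ?_)
      simp only [Equiv.trans_apply, Equiv.inv_apply, Equiv.coe_mulRight]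
      rw [mul_comm, mul_inv, inv_inv, mul_assoc, inv_mul_cancel, mul_one]
    simp only [e]
    have h := young_LV φ1 φ2 p10 p20
    have h2 : (∑ u, φ2 u) ^ 2 ≤ 1 := by nlinarith
    calc _ ≤ (∑ u, φ1 u ^ 2) * (∑ u, φ2 u) ^ 2 := h
      _ ≤ (∑ u, φ1 u ^ 2) * 1 := mul_le_mul_of_nonneg_left h2 q10
      _ ≤ b / (32 * K) := by linarith
  have hdec : ∀ v : (ZMod n)ˣ, (∑ u, φ u * φ (u⁻¹ * v)) ^ 2 ≤
      2 * (∑ u, φ2 u * φ2 (u⁻¹ * v)) ^ 2 + 4 * (∑ u, φ1 u * φ (u⁻¹ * v)) ^ 2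
        + 4 * (∑ u, φ2 u * φ1 (u⁻¹ * v)) ^ 2 := by
    intro v
    have e : ∑ u, φ u * φ (u⁻¹ * v) = ∑ u, φ2 u * φ2 (u⁻¹ * v) + ∑ u, φ1 u * φ (u⁻¹ * v)
        + ∑ u, φ2 u * φ1 (u⁻¹ * v) := by
      rw [← Finset.sum_add_distrib, ← Finset.sum_add_distrib]
      refine Finset.sum_congr rfl fun u _ => ?_
      have h1 := hs u
      have h2 := hs (u⁻¹ * v)
      calc φ u * φ (u⁻¹ * v) = φ1 u * φ (u⁻¹ * v) + φ2 u * φ (u⁻¹ * v) := by
            rw [h1]; ring
        _ = φ1 u * φ (u⁻¹ * v) + φ2 u * (φ1 (u⁻¹ * v) + φ2 (u⁻¹ * v)) := by rw [← h2]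
        _ = _ := by ring
    rw [e]
    nlinarith [sq_nonneg (∑ u, φ2 u * φ2 (u⁻¹ * v) - ∑ u, φ1 u * φ (u⁻¹ * v) - ∑ u, φ2 u * φ1 (u⁻¹ * v)),
      sq_nonneg (∑ u, φ1 u * φ (u⁻¹ * v) - ∑ u, φ2 u * φ1 (u⁻¹ * v))]
  have hP : b / (8 * K) ≤ ∑ v : (ZMod n)ˣ, (∑ u, φ2 u * φ2 (u⁻¹ * v)) ^ 2 := by
    have h1 : ∑ v : (ZMod n)ˣ, (∑ u, φ u * φ (u⁻¹ * v)) ^ 2 ≤
        2 * ∑ v : (ZMod n)ˣ, (∑ u, φ2 u * φ2 (u⁻¹ * v)) ^ 2
          + 4 * ∑ v : (ZMod n)ˣ, (∑ u, φ1 u * φ (u⁻¹ * v)) ^ 2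
          + 4 * ∑ v : (ZMod n)ˣ, (∑ u, φ2 u * φ1 (u⁻¹ * v)) ^ 2 := by
      rw [Finset.mul_sum, Finset.mul_sum, Finset.mul_sum, ← Finset.sum_add_distrib, ← Finset.sum_add_distrib]
      exact Finset.sum_le_sum fun v _ => hdec v
    have e1 : b / (2 * K) = 16 * (b / (32 * K)) := by field_simp; norm_num
    have e2 : b / (8 * K) = 4 * (b / (32 * K)) := by field_simp; norm_num
    rw [e1] at hun
    rw [e2]
    linarith
  -- the energy
  have hE : ∑ v : (ZMod n)ˣ, (∑ u, φ2 u * φ2 (u⁻¹ * v)) ^ 2 ≤ b ^ 4 * enM A := by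
    have hpt : ∀ v : (ZMod n)ˣ, ∑ u, φ2 u * φ2 (u⁻¹ * v) ≤
        b ^ 2 * (((A ×ˢ A).filter (fun x => x.1 * x.2 = v)).card : ℝ) := by
      intro v
      have e1 : (((A ×ˢ A).filter (fun x => x.1 * x.2 = v)).card : ℝ)
          = ∑ u : (ZMod n)ˣ, (if u ∈ A ∧ u⁻¹ * v ∈ A then (1 : ℝ) else 0) := by
        rw [← Finset.sum_filter, Finset.sum_const, nsmul_eq_mul, mul_one]
        congr 1
        refine Finset.card_bij (fun x _ => x.1) ?_ ?_ ?_
        · intro x hx
          obtain ⟨h1, h2⟩ := Finset.mem_filter.1 hx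
          obtain ⟨h3, h4⟩ := Finset.mem_product.1 h1
          refine Finset.mem_filter.2 ⟨Finset.mem_univ _, h3, ?_⟩
          rw [← h2, inv_mul_cancel_left]
          exact h4
        · intro x hx y hy hxy
          have hx2 := (Finset.mem_filter.1 hx).2
          have hy2 := (Finset.mem_filter.1 hy).2
          have hxy' : x.1 = y.1 := hxy
          refine Prod.ext hxy' ?_
          rw [hxy', ← hy2] at hx2
          exact mul_left_cancel hx2
        · intro u hu
          obtain ⟨_, h1, h2⟩ := Finset.mem_filter.1 hu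
          exact ⟨(u, u⁻¹ * v), Finset.mem_filter.2 ⟨Finset.mem_product.2 ⟨h1, h2⟩, mul_inv_cancel_left u v⟩, rfl⟩
      rw [e1, Finset.mul_sum]
      refine Finset.sum_le_sum fun u _ => ?_
      simp only [hφ2d]
      by_cases h1 : u ∈ A
      · by_cases h2 : u⁻¹ * v ∈ A
        · simp only [h1, h2, if_true, and_self, mul_one]
          rw [sq]
          exact mul_le_mul (hφb _) (hφb _) (hφ0 _) hb.le
        · simp [h1, h2]
      · simp [h1]
    have hnn : ∀ v : (ZMod n)ˣ, 0 ≤ ∑ u, φ2 u * φ2 (u⁻¹ * v) := fun v =>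
      Finset.sum_nonneg fun u _ => mul_nonneg (p20 _) (p20 _)
    calc ∑ v : (ZMod n)ˣ, (∑ u, φ2 u * φ2 (u⁻¹ * v)) ^ 2
        ≤ ∑ v : (ZMod n)ˣ, (b ^ 2 * (((A ×ˢ A).filter (fun x => x.1 * x.2 = v)).card : ℝ)) ^ 2 :=
          Finset.sum_le_sum fun v _ => pow_le_pow_left₀ (hnn v) (hpt v) 2
      _ = b ^ 4 * ∑ v : (ZMod n)ˣ, ((((A ×ˢ A).filter (fun x => x.1 * x.2 = v)).card : ℝ)) ^ 2 := by
          rw [Finset.mul_sum]
          refine Finset.sum_congr rfl fun v _ => ?_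
          ring
      _ = b ^ 4 * enM A := by
          congr 1
          have e1 : enM A = ∑ v : (ZMod n)ˣ, (((A ×ˢ A).filter (fun x => x.1 * x.2 = v)).card) ^ 2 := by
            unfold enM
            rw [Finset.card_eq_sum_card_fiberwise (f := fun x : (((ZMod n)ˣ × (ZMod n)ˣ) × ((ZMod n)ˣ × (ZMod n)ˣ)) =>
              x.1.1 * x.1.2) (t := Finset.univ) (fun x _ => Finset.mem_coe.2 (Finset.mem_univ _))]
            refine Finset.sum_congr rfl fun v _ => ?_
            rw [sq, ← Finset.card_product]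
            congr 1
            ext x
            simp only [Finset.mem_filter, Finset.mem_product]
            constructor
            · rintro ⟨⟨⟨h1, h2⟩, h3⟩, h4⟩
              exact ⟨⟨h1, h4⟩, ⟨h2, by rw [← h3]; exact h4⟩⟩
            · rintro ⟨⟨h1, h4⟩, ⟨h2, h5⟩⟩
              exact ⟨⟨⟨h1, h2⟩, by rw [h4, h5]⟩, h4⟩
          rw [e1]
          push_cast
          rfl
  have hfin : b / (8 * K) ≤ b ^ 4 * enM A := hP.trans hE
  rw [div_le_iff₀ (by positivity)] at hfin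
  have h5 : b * 1 ≤ b * (8 * K * b ^ 3 * enM A) := by
    calc b * 1 = b := mul_one b
      _ ≤ b ^ 4 * enM A * (8 * K) := hfin
      _ = b * (8 * K * b ^ 3 * enM A) := by ring
  exact le_of_mul_le_mul_left h5 hb

end Pool.Agent.Helper39.SPR
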